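import Mathlib

namespace Pool.Agent.Results.MP_b9e9b1_co.Rigid33

/-- The hypercube `Q_n` (the two Booleans stand for `1` and `-1`). -/
abbrev Q (n : ℕ) := Fin n → Bool

/-- Hamming diameter. -/
def diam {n : ℕ} (A : Finset (Q n)) : ℕ := A.sup fun x => A.sup fun y => hammingDist x y

def MaxDiam {n : ℕ} (r : ℕ) (A : Finset (Q n)) : Prop :=
  diam A = r ∧ ∀ x, x ∉ A → r < diam (insert x A)

def Rigid {n : ℕ} (A : Finset (Q n)) : Prop :=
  ∀ a ∈ A, (A.sup fun x => hammingDist x a) = diam A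

open Classical in
/-- `b'(n;r)`: largest size of a rigid, maximally diameter-`r` subset of `Q_n`. -/
noncomputable def b' (n r : ℕ) : ℕ :=
  (Finset.univ.filter fun A : Finset (Q n) => MaxDiam r A ∧ Rigid A).sup Finset.card

def pt (m : ℕ) : Q 7 := fun i => m.testBit i

def L : List ℕ := [0, 5, 6, 9, 10, 15, 17, 18, 23, 27, 29, 30, 31, 39, 43, 51, 59, 71, 73, 74, 75, 79, 81, 82, 83, 87, 91, 93, 94, 103, 107, 115, 124]

def A0 : Finset (Q 7) := (L.map pt).toFinset

theorem h1 : ∀ x ∈ L, ∀ y ∈ L, hammingDist (pt x) (pt y) ≤ 5 := by decide +kernel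
theorem h2 : ∀ y ∈ L, ∃ x ∈ L, hammingDist (pt x) (pt y) = 5 := by decide +kernel
theorem h3 : ∀ m < 128, m ∈ L ∨ ∃ y ∈ L, 5 < hammingDist (pt m) (pt y) := by decide +kernel
theorem h4 : ∀ a b c d e f g : Bool, ∃ m < 128, pt m = ![a, b, c, d, e, f, g] := by
  intro a b c d e f g
  refine ⟨a.toNat + 2 * b.toNat + 4 * c.toNat + 8 * d.toNat + 16 * e.toNat + 32 * f.toNat +
    64 * g.toNat, ?_⟩
  revert a b c d e f g
  decide +kernel
theorem h5 : (L.map pt).Nodup := by decide +kernel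

theorem mem {x : Q 7} : x ∈ A0 ↔ ∃ m ∈ L, pt m = x := by simp [A0]

theorem row (a : Q 7) (ha : a ∈ A0) : (A0.sup fun x => hammingDist x a) = 5 := by
  obtain ⟨m, hm, rfl⟩ := mem.1 ha
  apply le_antisymm
  · refine Finset.sup_le fun x hx => ?_
    obtain ⟨k, hk, rfl⟩ := mem.1 hx
    exact h1 k hk m hm
  · obtain ⟨k, hk, h⟩ := h2 m hm
    exact h ▸ Finset.le_sup (f := fun x => hammingDist x (pt m)) (mem.2 ⟨k, hk, rfl⟩)

theorem diam0 : diam A0 = 5 := by
  have : ∀ a ∈ A0, (A0.sup fun y => hammingDist a y) = 5 := fun a ha => by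
    rw [← row a ha]; simp only [hammingDist_comm]
  apply le_antisymm
  · exact Finset.sup_le fun a ha => (this a ha).le
  · have h0 : pt 0 ∈ A0 := mem.2 ⟨0, by decide, rfl⟩
    exact this _ h0 ▸ Finset.le_sup (f := fun x => A0.sup fun y => hammingDist x y) h0

theorem result :
    (∃ A : Finset (Q 7), MaxDiam 5 A ∧ Rigid A ∧ A.card = 33) ∧
    ¬ ∀ n r : ℕ, r ≤ n → b' n r = 2 ^ r := by
  have hM : MaxDiam 5 A0 := by
    refine ⟨diam0, fun x hx => ?_⟩
    obtain ⟨m, hm, h⟩ := h4 (x 0) (x 1) (x 2) (x 3) (x 4) (x 5) (x 6)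
    have hx' : pt m = x := by
      rw [h]; funext i; fin_cases i <;> rfl
    rcases h3 m hm with h | ⟨y, hy, h⟩
    · exact absurd (mem.2 ⟨m, h, hx'⟩) hx
    · rw [hx'] at h
      refine h.trans_le (le_trans ?_ (Finset.le_sup (f := fun z => (insert x A0).sup fun y =>
        hammingDist z y) (Finset.mem_insert_self x A0)))
      exact Finset.le_sup (f := fun y => hammingDist x y)
        (Finset.mem_insert_of_mem (mem.2 ⟨y, hy, rfl⟩))
  have hR : Rigid A0 := fun a ha => by rw [row a ha, diam0]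
  have hc : A0.card = 33 := by rw [A0, List.toFinset_card_of_nodup h5]; rfl
  refine ⟨⟨A0, hM, hR, hc⟩, fun h => ?_⟩
  have h6 : A0.card ≤ b' 7 5 := by
    unfold b'
    exact Finset.le_sup (f := Finset.card) (by simp [hM, hR])
  rw [h 7 5 (by decide), hc] at h6
  omega

end Pool.Agent.Results.MP_b9e9b1_co.Rigid33
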